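import Mathlib

/-!
# Distributed spectral pairs that are spectral neither modulo `M` nor modulo `M ^ 2`

For every `m ≥ 1` put `M = 24 m`, `A = {0, 4m, 16m, 20m}` and `B = {0, 3, 18m, 18m + 3}`
(for `m = 1` this is `M = 24`, `A = {0, 4, 16, 20}`, `B = {0, 3, 18, 21}`). Both sets lie in
`{0, ..., M - 1}`. The differences `± 3`, `± (18m - 3)`, `± (18m + 3)` of `B` are zeros of the
factor `1 + e(4mξ)` of the Fourier transform of `A` at the scale `1 / M`; the difference `± 18m`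
is only seen by the factor `1 + e(16mξ)`, at the scale `1 / M ^ 2`, and there it is not disturbed
by the shifts by `(b₂ - b₂') / M`, all elements of `B` being multiples of three.
-/

namespace Pool.Agent.Results.MP_2c87a3_an.DistributedNotSpectral

/-- The normalised Fourier transform of the counting measure on the finite set `E` of integers,
`(1 / |E|) * ∑_{a ∈ E} exp (-2 π i ξ a)`. -/
noncomputable def nuHat (E : Finset ℤ) (ξ : ℝ) : ℂ :=
  (1 / (E.card : ℂ)) * ∑ a ∈ E, Complex.exp (-2 * Real.pi * Complex.I * ξ * a)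

/-- `(A, B)` is a spectral pair in `ℤ_N`: the Fourier transform of `A` vanishes at
`(b - b') / N` for all distinct `b, b' ∈ B`. -/
def SpectralPair (N : ℕ) (A B : Finset ℤ) : Prop :=
  ∀ b ∈ B, ∀ b' ∈ B, b ≠ b' → nuHat A (((b : ℝ) - b') / N) = 0

/-- `(A, B)` is a distributed spectral pair (in `{0, ..., M - 1}`): for all distinct `b₁, b₁' ∈ B`
the Fourier transform of `A` vanishes at `(b₁ - b₁') / M`, or it vanishes at
`(b₁ - b₁') / M ^ 2 + (b₂ - b₂') / M` for all `b₂, b₂' ∈ B`. -/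
def DistributedSpectralPair (M : ℕ) (A B : Finset ℤ) : Prop :=
  ∀ b₁ ∈ B, ∀ b₁' ∈ B, b₁ ≠ b₁' →
    nuHat A (((b₁ : ℝ) - b₁') / M) = 0 ∨
    ∀ b₂ ∈ B, ∀ b₂' ∈ B,
      nuHat A (((b₁ : ℝ) - b₁') / (M : ℝ) ^ 2 + ((b₂ : ℝ) - b₂') / M) = 0

/-- The set `{0, 4m, 16m, 20m}`. -/
def setA (m : ℕ) : Finset ℤ := {0, 4 * (m : ℤ), 16 * (m : ℤ), 20 * (m : ℤ)}

/-- The set `{0, 3, 18m, 18m + 3}`. -/
def setB (m : ℕ) : Finset ℤ := {0, 3, 18 * (m : ℤ), 18 * (m : ℤ) + 3}

lemma mem_setA {m : ℕ} {a : ℤ} (ha : a ∈ setA m) :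
    a = 0 ∨ a = 4 * (m : ℤ) ∨ a = 16 * (m : ℤ) ∨ a = 20 * (m : ℤ) := by
  simpa [setA] using ha

lemma mem_setB {m : ℕ} {b : ℤ} (hb : b ∈ setB m) :
    b = 0 ∨ b = 3 ∨ b = 18 * (m : ℤ) ∨ b = 18 * (m : ℤ) + 3 := by
  simpa [setB] using hb

lemma card_setA {m : ℕ} (hm : 1 ≤ m) : (setA m).card = 4 := by
  have hm' : (1 : ℤ) ≤ m := by exact_mod_cast hm
  unfold setA
  rw [Finset.card_insert_of_notMem, Finset.card_insert_of_notMem, Finset.card_insert_of_notMem,
    Finset.card_singleton]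
  · simp only [Finset.mem_singleton]; omega
  · simp only [Finset.mem_insert, Finset.mem_singleton]; omega
  · simp only [Finset.mem_insert, Finset.mem_singleton]; omega

lemma card_setB {m : ℕ} (hm : 1 ≤ m) : (setB m).card = 4 := by
  have hm' : (1 : ℤ) ≤ m := by exact_mod_cast hm
  unfold setB
  rw [Finset.card_insert_of_notMem, Finset.card_insert_of_notMem, Finset.card_insert_of_notMem,
    Finset.card_singleton]
  · simp only [Finset.mem_singleton]; omega
  · simp only [Finset.mem_insert, Finset.mem_singleton]; omega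
  · simp only [Finset.mem_insert, Finset.mem_singleton]; omega

lemma nuHat_setA {m : ℕ} (hm : 1 ≤ m) (ξ : ℝ) :
    nuHat (setA m) ξ = (1 / 4) * ((1 + Complex.exp (-2 * Real.pi * Complex.I * (4 * m * ξ))) *
      (1 + Complex.exp (-2 * Real.pi * Complex.I * (16 * m * ξ)))) := by
  have hm' : (1 : ℤ) ≤ m := by exact_mod_cast hm
  have hs : ∑ a ∈ setA m, Complex.exp (-2 * Real.pi * Complex.I * ξ * a) =
      (1 + Complex.exp (-2 * Real.pi * Complex.I * (4 * m * ξ))) *
      (1 + Complex.exp (-2 * Real.pi * Complex.I * (16 * m * ξ))) := by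
    unfold setA
    rw [Finset.sum_insert (by simp only [Finset.mem_insert, Finset.mem_singleton]; omega),
      Finset.sum_insert (by simp only [Finset.mem_insert, Finset.mem_singleton]; omega),
      Finset.sum_insert (by simp only [Finset.mem_singleton]; omega), Finset.sum_singleton]
    rw [mul_add, add_mul, add_mul, one_mul, one_mul, mul_one, ← Complex.exp_add]
    have e0 : Complex.exp (-2 * Real.pi * Complex.I * ξ * ((0 : ℤ) : ℂ)) = 1 := by simp
    rw [e0]
    have e1 : (-2 * Real.pi * Complex.I * ξ * ((4 * (m : ℤ) : ℤ) : ℂ)) =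
      (-2 * Real.pi * Complex.I * (4 * m * ξ)) := by push_cast; ring
    have e2 : (-2 * Real.pi * Complex.I * ξ * ((16 * (m : ℤ) : ℤ) : ℂ)) =
      (-2 * Real.pi * Complex.I * (16 * m * ξ)) := by push_cast; ring
    have e3 : (-2 * Real.pi * Complex.I * ξ * ((20 * (m : ℤ) : ℤ) : ℂ)) =
      (-2 * Real.pi * Complex.I * (4 * m * ξ)) + (-2 * Real.pi * Complex.I * (16 * m * ξ)) := by
      push_cast; ring
    rw [e1, e2, e3]
    ring
  unfold nuHat
  rw [hs, card_setA hm]
  norm_num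

lemma exp_half (x : ℂ) (k : ℤ) (hx : x = k + 1 / 2) :
    Complex.exp (-2 * Real.pi * Complex.I * x) = -1 := by
  have h : (-2 * Real.pi * Complex.I * x) =
      -(Real.pi * Complex.I) + (-k : ℤ) * (2 * Real.pi * Complex.I) := by
    rw [hx]; push_cast; ring
  rw [h, Complex.exp_add, Complex.exp_int_mul_two_pi_mul_I, mul_one, Complex.exp_neg,
    Complex.exp_pi_mul_I]
  norm_num

lemma zero_of_four {m : ℕ} (hm : 1 ≤ m) (ξ : ℝ) (k : ℤ) (h : 4 * m * ξ = k + 1 / 2) :
    nuHat (setA m) ξ = 0 := by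
  have h' : (4 * m * ξ : ℂ) = k + 1 / 2 := by
    have := congrArg Complex.ofReal h
    push_cast at this
    exact this
  rw [nuHat_setA hm, exp_half (4 * m * ξ) k h']
  ring

lemma zero_of_sixteen {m : ℕ} (hm : 1 ≤ m) (ξ : ℝ) (k : ℤ) (h : 16 * m * ξ = k + 1 / 2) :
    nuHat (setA m) ξ = 0 := by
  have h' : (16 * m * ξ : ℂ) = k + 1 / 2 := by
    have := congrArg Complex.ofReal h
    push_cast at this
    exact this
  rw [nuHat_setA hm, exp_half (16 * m * ξ) k h']
  ring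

lemma distributed {m : ℕ} (hm : 1 ≤ m) :
    DistributedSpectralPair (24 * m) (setA m) (setB m) := by
  intro b hb b' hb' hne
  have hm0 : (m : ℝ) ≠ 0 := by positivity
  -- the differences are odd multiples of three, or `± 18 m`
  have key : (∃ k : ℤ, b - b' = 6 * k + 3) ∨ (∃ k : ℤ, b - b' = (m : ℤ) * (36 * k + 18)) := by
    have hb1 := mem_setB hb
    have hb2 := mem_setB hb'
    have h : (b - b' = 6 * ((b - b') / 6) + 3) ∨ b - b' = 18 * (m : ℤ) ∨
        b - b' = -(18 * (m : ℤ)) := by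
      omega
    rcases h with h | h | h
    · exact Or.inl ⟨_, h⟩
    · exact Or.inr ⟨0, by rw [h]; ring⟩
    · exact Or.inr ⟨-1, by rw [h]; ring⟩
  rcases key with ⟨k, hk⟩ | ⟨k, hk⟩
  · left
    apply zero_of_four hm _ k
    have : ((b : ℝ) - b') = 6 * k + 3 := by exact_mod_cast hk
    rw [this]; push_cast; field_simp; ring
  · right
    intro b₂ hb₂ b₂' hb₂'
    have h3 : ∃ l : ℤ, b₂ - b₂' = 3 * l := by
      have hb1 := mem_setB hb₂
      have hb2 := mem_setB hb₂'
      exact ⟨(b₂ - b₂') / 3, by omega⟩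
    obtain ⟨l, hl⟩ := h3
    apply zero_of_sixteen hm _ (k + 2 * l)
    have h1 : ((b : ℝ) - b') = m * (36 * k + 18) := by exact_mod_cast hk
    have h2 : ((b₂ : ℝ) - b₂') = 3 * l := by exact_mod_cast hl
    rw [h1, h2]; push_cast; field_simp; ring

lemma not_spectral_M {m : ℕ} (hm : 1 ≤ m) : ¬ SpectralPair (24 * m) (setA m) (setB m) := by
  intro h
  have hm0 : (m : ℂ) ≠ 0 := by exact_mod_cast (by omega : m ≠ 0)
  have hm1 : (1 : ℤ) ≤ m := by exact_mod_cast hm
  have h1 := h (18 * m) (by simp [setB]) 0 (by simp [setB]) (by omega)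
  rw [nuHat_setA hm] at h1
  have e1 : Complex.exp (-2 * Real.pi * Complex.I *
      (4 * m * ((((18 * m : ℤ) : ℝ) - ((0 : ℤ) : ℝ)) / ((24 * m : ℕ) : ℝ) : ℝ))) = 1 := by
    have : (-2 * Real.pi * Complex.I *
      (4 * m * ((((18 * m : ℤ) : ℝ) - ((0 : ℤ) : ℝ)) / ((24 * m : ℕ) : ℝ) : ℝ))) =
      (-3 * m : ℤ) * (2 * Real.pi * Complex.I) := by push_cast; field_simp; ring
    rw [this, Complex.exp_int_mul_two_pi_mul_I]
  have e2 : Complex.exp (-2 * Real.pi * Complex.I *
      (16 * m * ((((18 * m : ℤ) : ℝ) - ((0 : ℤ) : ℝ)) / ((24 * m : ℕ) : ℝ) : ℝ))) = 1 := by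
    have : (-2 * Real.pi * Complex.I *
      (16 * m * ((((18 * m : ℤ) : ℝ) - ((0 : ℤ) : ℝ)) / ((24 * m : ℕ) : ℝ) : ℝ))) =
      (-12 * m : ℤ) * (2 * Real.pi * Complex.I) := by push_cast; field_simp; ring
    rw [this, Complex.exp_int_mul_two_pi_mul_I]
  rw [e1, e2] at h1
  norm_num at h1

lemma one_add_exp_ne_zero (x : ℝ) (h0 : 0 < x) (h1 : x < Real.pi / 2) (z : ℂ)
    (hz : z = -(x : ℂ) * Complex.I) : 1 + Complex.exp z ≠ 0 := by
  intro h
  have hre : (1 + Complex.exp z).re = 0 := by rw [h]; simp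
  have : (Complex.exp z).re = Real.cos x := by
    rw [hz, Complex.exp_re]
    simp
  rw [Complex.add_re, this] at hre
  have hc : 0 < Real.cos x := Real.cos_pos_of_mem_Ioo ⟨by linarith, h1⟩
  simp only [Complex.one_re] at hre
  linarith

lemma not_spectral_M_sq {m : ℕ} (hm : 1 ≤ m) :
    ¬ SpectralPair ((24 * m) ^ 2) (setA m) (setB m) := by
  intro h
  have hm0 : (m : ℂ) ≠ 0 := by exact_mod_cast (by omega : m ≠ 0)
  have hm1 : (1 : ℝ) ≤ m := by exact_mod_cast hm
  have h1 := h 3 (by simp [setB]) 0 (by simp [setB]) (by norm_num)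
  rw [nuHat_setA hm] at h1
  have hpi := Real.pi_pos
  have hle : Real.pi / m ≤ Real.pi := div_le_self hpi.le hm1
  have hpos : 0 < Real.pi / m := by positivity
  have e1 := one_add_exp_ne_zero (Real.pi / m / 24) (by positivity) (by linarith)
    (-2 * Real.pi * Complex.I *
      (4 * m * ((((3 : ℤ) : ℝ) - ((0 : ℤ) : ℝ)) / (((24 * m) ^ 2 : ℕ) : ℝ) : ℝ)))
    (by push_cast; field_simp; ring)
  have e2 := one_add_exp_ne_zero (Real.pi / m / 6) (by positivity) (by linarith)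
    (-2 * Real.pi * Complex.I *
      (16 * m * ((((3 : ℤ) : ℝ) - ((0 : ℤ) : ℝ)) / (((24 * m) ^ 2 : ℕ) : ℝ) : ℝ)))
    (by push_cast; field_simp; ring)
  have := mul_ne_zero (by norm_num : (1 / 4 : ℂ) ≠ 0) (mul_ne_zero e1 e2)
  exact this h1

/-- For every multiple `M = 24 m` (`m ≥ 1`) of `24` the sets `A = {0, 4m, 16m, 20m}` and
`B = {0, 3, 18m, 18m + 3}` form a distributed spectral pair in `{0, ..., M - 1}` that is a spectral
pair neither in `ℤ_M` nor in `ℤ_{M ^ 2}`. -/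
theorem result (m : ℕ) (hm : 1 ≤ m) :
    3 ≤ 24 * m ∧
    (∀ a ∈ setA m, 0 ≤ a ∧ a < ((24 * m : ℕ) : ℤ)) ∧
    (∀ b ∈ setB m, 0 ≤ b ∧ b < ((24 * m : ℕ) : ℤ)) ∧
    (setA m).card = (setB m).card ∧ 1 < (setA m).card ∧ (setA m).card < 24 * m ∧
    DistributedSpectralPair (24 * m) (setA m) (setB m) ∧
    ¬ SpectralPair (24 * m) (setA m) (setB m) ∧
    ¬ SpectralPair ((24 * m) ^ 2) (setA m) (setB m) := by
  refine ⟨by omega, ?_, ?_, ?_, ?_, ?_, distributed hm, not_spectral_M hm,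
    not_spectral_M_sq hm⟩
  · intro a ha
    have := mem_setA ha
    push_cast
    omega
  · intro b hb
    have := mem_setB hb
    push_cast
    omega
  · rw [card_setA hm, card_setB hm]
  · rw [card_setA hm]; norm_num
  · rw [card_setA hm]; omega

end Pool.Agent.Results.MP_2c87a3_an.DistributedNotSpectral
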